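import Mathlib

set_option linter.unusedSectionVars false

open MeasureTheory ProbabilityTheory Set Filter Topology
open scoped ENNReal NNReal

namespace Pool.Agent.H308R3.Perc

section aux

variable {Γ : Type*} [Group Γ] [DecidableEq Γ]

/-- unnormalised mass -/
noncomputable def F (A : ℕ → Finset Γ) (e : ℕ → Γ) (g : Γ) : ℝ≥0∞ :=
  ∑' k : ℕ, ENNReal.ofReal ((3 / 4) ^ k / (3 * ((k : ℝ) + 2))) *
    ((if g ∈ A k then 1 else 0) + (if g⁻¹ ∈ A k then 1 else 0)) +
  ∑' k : ℕ, ENNReal.ofReal ((1 / 2) ^ k) * ((if g = e k then 1 else 0) + (if g⁻¹ = e k then 1 else 0))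

theorem F_inv (A : ℕ → Finset Γ) (e : ℕ → Γ) (g : Γ) : F A e g⁻¹ = F A e g := by
  simp only [F, inv_inv]
  congr 1
  · congr 1
    ext k
    congr 1
    rw [add_comm]
  · congr 1
    ext k
    congr 1
    rw [add_comm]

theorem tsum_mem (s : Finset Γ) : ∑' g : Γ, (if g ∈ s then (1 : ℝ≥0∞) else 0) = s.card := by
  rw [tsum_eq_sum (s := s) (fun b hb => by simp [hb])]
  rw [Finset.sum_congr rfl (fun b hb => by rw [if_pos hb])]
  simp

theorem tsum_mem_inv (s : Finset Γ) :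
    ∑' g : Γ, (if g⁻¹ ∈ s then (1 : ℝ≥0∞) else 0) = s.card := by
  rw [← tsum_mem s]
  exact (Equiv.inv Γ).tsum_eq (fun g => if g ∈ s then (1 : ℝ≥0∞) else 0)

theorem F_sum (A : ℕ → Finset Γ) (hc : ∀ k, (A k).card = 3 * (k + 2)) (e : ℕ → Γ) :
    ∑' g, F A e g ≠ ⊤ := by
  have h1 : ∀ (_ : ℕ) (s : Finset Γ) (c : ℝ≥0∞), ∑' g : Γ, c *
      ((if g ∈ s then 1 else 0) + (if g⁻¹ ∈ s then 1 else 0)) = c * (s.card + s.card) := by
    intro _ s c
    rw [ENNReal.tsum_mul_left, ENNReal.tsum_add, tsum_mem, tsum_mem_inv]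
  have h2 : ∑' g, F A e g = ∑' k : ℕ, ENNReal.ofReal ((3 / 4) ^ k / (3 * ((k : ℝ) + 2))) *
      (((A k).card : ℝ≥0∞) + (A k).card) + ∑' k : ℕ, ENNReal.ofReal ((1 / 2) ^ k) * (1 + 1) := by
    simp only [F]
    rw [ENNReal.tsum_add, ENNReal.tsum_comm, ENNReal.tsum_comm (α := Γ)]
    congr 1
    · congr 1
      ext k
      exact h1 k _ _
    · congr 1
      ext k
      have := h1 k {e k} (ENNReal.ofReal ((1 / 2) ^ k))
      simpa using this
  rw [h2]
  apply ENNReal.add_ne_top.mpr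
  constructor
  · have h3 : ∀ k : ℕ, ENNReal.ofReal ((3 / 4) ^ k / (3 * (k + 2))) *
        (((A k).card : ℝ≥0∞) + (A k).card) = ENNReal.ofReal (2 * (3 / 4) ^ k) := by
      intro k
      rw [hc k, ← two_mul]
      have : (2 * ((3 * (k + 2) : ℕ) : ℝ≥0∞)) = ENNReal.ofReal (2 * (3 * (k + 2))) := by
        rw [ENNReal.ofReal_mul (by norm_num)]
        congr 1
        · simp
        · rw [show (3 * ((k : ℝ) + 2)) = ((3 * (k + 2) : ℕ) : ℝ) by push_cast; ring,
            ENNReal.ofReal_natCast]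
      rw [this, ← ENNReal.ofReal_mul (by positivity)]
      congr 1
      field_simp
    simp only [h3]
    have hs : Summable (fun k : ℕ => 2 * (3 / 4 : ℝ) ^ k) :=
      (summable_geometric_of_lt_one (by norm_num) (by norm_num)).mul_left 2
    exact hs.tsum_ofReal_ne_top
  · rw [ENNReal.tsum_mul_right]
    apply ENNReal.mul_ne_top _ (by norm_num)
    exact (summable_geometric_of_lt_one (by norm_num) (by norm_num)).tsum_ofReal_ne_top

theorem F_ge_A (A : ℕ → Finset Γ) (e : ℕ → Γ) (k : ℕ) {a : Γ} (ha : a ∈ A k) :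
    ENNReal.ofReal ((3 / 4) ^ k / (3 * (k + 2))) ≤ F A e a := by
  unfold F
  refine le_trans ?_ le_self_add
  refine le_trans ?_ (ENNReal.le_tsum k)
  rw [if_pos ha]
  calc ENNReal.ofReal ((3 / 4) ^ k / (3 * (k + 2)))
      = ENNReal.ofReal ((3 / 4) ^ k / (3 * (k + 2))) * 1 := (mul_one _).symm
    _ ≤ _ := by gcongr; exact le_self_add

theorem F_pos (A : ℕ → Finset Γ) (e : ℕ → Γ) (he : Function.Surjective e) (g : Γ) :
    F A e g ≠ 0 := by
  obtain ⟨k, rfl⟩ := he g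
  apply ne_of_gt
  unfold F
  refine lt_of_lt_of_le ?_ le_add_self
  refine lt_of_lt_of_le ?_ (ENNReal.le_tsum k)
  rw [if_pos rfl]
  apply ENNReal.mul_pos
  · rw [Ne, ENNReal.ofReal_eq_zero, not_le]
    positivity
  · exact ne_of_gt (lt_of_lt_of_le one_pos le_self_add)

end aux

end Pool.Agent.H308R3.Perc
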