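import Pool.Agent.H308R3.Perc.K

set_option linter.unusedSectionVars false

open MeasureTheory ProbabilityTheory Set

namespace Pool.Agent.H308R3.Perc

variable {Γ : Type*} [Group Γ] [DecidableEq Γ]

/-- connection through open edges inside `T` -/
def Link (ω : Sym2 Γ → ℕ) (T : Finset Γ) : Γ → Γ → Prop :=
  Relation.ReflTransGen (fun x y => x ∈ T ∧ y ∈ T ∧ ω s(x, y) ≠ 0)

/-- `T` is a witness: a connected set of size `2 ^ k` around `v` inside `v D` -/
def Wit (D : Finset Γ) (k : ℕ) (v : Γ) (ω : Sym2 Γ → ℕ) (T : Finset Γ) : Prop :=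
  T ⊆ D.image (fun d => v * d) ∧ T.card = 2 ^ k ∧ v ∈ T ∧ ∀ x ∈ T, Link ω T v x

/-- the good event -/
def Good (D : Finset Γ) (k : ℕ) (v : Γ) : Set (Sym2 Γ → ℕ) := {ω | ∃ T, Wit D k v ω T}

theorem Wit.congr {D : Finset Γ} {k : ℕ} {v : Γ} {x y : Sym2 Γ → ℕ}
    (hxy : ∀ i ∈ (D.image (fun d => v * d)).sym2, x i = y i) (T : Finset Γ)
    (h : Wit D k v x T) : Wit D k v y T := by
  obtain ⟨h1, h2, h3, h4⟩ := h
  refine ⟨h1, h2, h3, fun z hz => ?_⟩
  refine Relation.ReflTransGen.mono ?_ _ _ (h4 z hz)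
  rintro a b ⟨ha, hb, hab⟩
  refine ⟨ha, hb, ?_⟩
  rw [← hxy]
  · exact hab
  · rw [Finset.mk_mem_sym2_iff]
    exact ⟨h1 ha, h1 hb⟩

theorem wit_iff {D : Finset Γ} {k : ℕ} {v : Γ} {x y : Sym2 Γ → ℕ}
    (hxy : ∀ i ∈ (D.image (fun d => v * d)).sym2, x i = y i) (T : Finset Γ) :
    Wit D k v x T ↔ Wit D k v y T :=
  ⟨Wit.congr hxy T, Wit.congr (fun i hi => (hxy i hi).symm) T⟩

theorem dep_good (D : Finset Γ) (k : ℕ) (v : Γ) :
    Dep (D.image (fun d => v * d)).sym2 (Good D k v) := fun _ _ hxy =>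
  exists_congr fun T => wit_iff hxy T

/-- the data at one scale -/
structure Scale (D A D' : Finset Γ) : Prop where
  one : (1 : Γ) ∈ D
  sub : D ⊆ D'
  sub' : ∀ c ∈ D, ∀ a ∈ A, ∀ d ∈ D, c * a * d ∈ D'
  dis : ∀ c ∈ D, ∀ a ∈ A, ∀ d ∈ D, c * a * d ∉ D
  dis' : ∀ c ∈ D, ∀ a ∈ A, ∀ d ∈ D, ∀ c' ∈ D, ∀ a' ∈ A, ∀ d' ∈ D,
    c * a * d = c' * a' * d' → a = a'

section step

variable {D A D' : Finset Γ} (h : Scale D A D') (v : Γ)

/-- the central block -/
def X (D : Finset Γ) (v : Γ) : Finset Γ := D.image (fun d => v * d)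

/-- the region of `a` -/
def Y (D : Finset Γ) (v a : Γ) : Finset Γ := Finset.image₂ (fun c d => c * a * d) (X D v) D

theorem mem_X {D : Finset Γ} {v x : Γ} : x ∈ X D v ↔ ∃ d ∈ D, v * d = x := by
  rw [X, Finset.mem_image]

theorem mem_Y {D : Finset Γ} {v a x : Γ} :
    x ∈ Y D v a ↔ ∃ c ∈ D, ∃ d ∈ D, v * (c * a * d) = x := by
  simp only [Y, Finset.mem_image₂, mem_X]
  constructor
  · rintro ⟨_, ⟨c, hc, rfl⟩, d, hd, rfl⟩
    exact ⟨c, hc, d, hd, by group⟩
  · rintro ⟨c, hc, d, hd, rfl⟩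
    exact ⟨v * c, ⟨c, hc, rfl⟩, d, hd, by group⟩

include h in
theorem XY {a : Γ} (ha : a ∈ A) {x : Γ} (hx : x ∈ X D v) (hy : x ∈ Y D v a) : False := by
  obtain ⟨e, he, rfl⟩ := mem_X.mp hx
  obtain ⟨c, hc, d, hd, h1⟩ := mem_Y.mp hy
  have h2 : c * a * d = e := mul_left_cancel h1
  exact h.dis c hc a ha d hd (h2 ▸ he)

include h in
theorem YY {a b : Γ} (ha : a ∈ A) (hb : b ∈ A) {x : Γ} (hx : x ∈ Y D v a) (hy : x ∈ Y D v b) :
    a = b := by
  obtain ⟨c, hc, d, hd, h1⟩ := mem_Y.mp hx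
  obtain ⟨c', hc', d', hd', h1'⟩ := mem_Y.mp hy
  exact h.dis' c hc a ha d hd c' hc' b hb d' hd' (mul_left_cancel (h1.trans h1'.symm))

include h in
theorem mul_mem_Y {a : Γ} {x : Γ} (hx : x ∈ X D v) : x * a ∈ Y D v a := by
  obtain ⟨e, he, rfl⟩ := mem_X.mp hx
  exact mem_Y.mpr ⟨e, he, 1, h.one, by group⟩

/-- the edges from the central block in direction `a` -/
def Ed (T : Finset Γ) (a : Γ) : Finset (Sym2 Γ) := T.image (fun c => s(c, c * a))

/-- the dependency set of direction `a` -/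
def J (D : Finset Γ) (v a : Γ) : Finset (Sym2 Γ) := Ed (X D v) a ∪ (Y D v a).sym2

theorem mem_Ed {T : Finset Γ} {a : Γ} {e : Sym2 Γ} : e ∈ Ed T a ↔ ∃ c ∈ T, s(c, c * a) = e := by
  simp [Ed]

include h in
theorem dis_XJ {a : Γ} (ha : a ∈ A) : Disjoint (X D v).sym2 (J D v a) := by
  rw [Finset.disjoint_left]
  intro e h1 h2
  rw [J, Finset.mem_union] at h2
  rw [Finset.mem_sym2_iff] at h1
  rcases h2 with h2 | h2
  · obtain ⟨c, hc, rfl⟩ := mem_Ed.mp h2
    exact XY h v ha (h1 (c * a) (by simp)) (mul_mem_Y h v hc)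
  · rw [Finset.mem_sym2_iff] at h2
    induction e using Sym2.ind with
    | _ x y => exact XY h v ha (h1 x (by simp)) (h2 x (by simp))

include h in
theorem dis_Ed_Y {a b : Γ} (hb : b ∈ A) {T : Finset Γ} (hT : T ⊆ X D v) :
    Disjoint (Ed T a) (Y D v b).sym2 := by
  rw [Finset.disjoint_left]
  intro e h1 h2
  obtain ⟨c, hc, rfl⟩ := mem_Ed.mp h1
  rw [Finset.mem_sym2_iff] at h2
  exact XY h v hb (hT hc) (h2 c (by simp))

include h in
theorem dis_JJ {a b : Γ} (ha : a ∈ A) (hb : b ∈ A) (hab : a ≠ b) :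
    Disjoint (J D v a) (J D v b) := by
  rw [J, J, Finset.disjoint_union_left, Finset.disjoint_union_right, Finset.disjoint_union_right]
  refine ⟨⟨?_, dis_Ed_Y h v hb (subset_refl _)⟩, (dis_Ed_Y h v ha (subset_refl _)).symm, ?_⟩
  · rw [Finset.disjoint_left]
    intro e h1 h2
    obtain ⟨c, hc, rfl⟩ := mem_Ed.mp h1
    obtain ⟨c', hc', h3⟩ := mem_Ed.mp h2
    rw [Sym2.eq_iff] at h3
    rcases h3 with ⟨_, h3⟩ | ⟨h3, _⟩
    · apply hab
      refine YY h v ha hb (x := c * a) (mul_mem_Y h v hc) ?_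
      rw [← h3]
      exact mul_mem_Y h v hc'
    · exact XY h v ha hc' (h3 ▸ mul_mem_Y h v hc)
  · rw [Finset.disjoint_left]
    intro e h1 h2
    rw [Finset.mem_sym2_iff] at h1 h2
    induction e using Sym2.ind with
    | _ x y => exact hab (YY h v ha hb (h1 x (by simp)) (h2 x (by simp)))

include h in
theorem Ed_card {a : Γ} (ha : a ∈ A) {T : Finset Γ} (hT : T ⊆ X D v) : (Ed T a).card = T.card := by
  rw [Ed, Finset.card_image_of_injOn]
  intro c hc c' hc' h1
  simp only [Sym2.eq_iff] at h1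
  rcases h1 with ⟨h1, _⟩ | ⟨h1, _⟩
  · exact h1
  · exfalso
    exact XY h v ha (hT hc) (h1 ▸ mul_mem_Y h v (hT hc'))

include h in
theorem block_sub {a c : Γ} (hc : c ∈ X D v) : D.image (fun d => c * a * d) ⊆ Y D v a := by
  intro x hx
  obtain ⟨d, hd, rfl⟩ := Finset.mem_image.mp hx
  obtain ⟨e, he, rfl⟩ := mem_X.mp hc
  exact mem_Y.mpr ⟨e, he, d, hd, by group⟩

include h in
theorem Y_sub {a : Γ} (ha : a ∈ A) : Y D v a ⊆ D'.image (fun d => v * d) := by
  intro x hx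
  obtain ⟨c, hc, d, hd, rfl⟩ := mem_Y.mp hx
  exact Finset.mem_image_of_mem _ (h.sub' c hc a ha d hd)

/-- the failure event in direction `a` -/
def B (D : Finset Γ) (k : ℕ) (T : Finset Γ) (a : Γ) : Set (Sym2 Γ → ℕ) :=
  {ω | ¬ ∃ c ∈ T, ω s(c, c * a) ≠ 0 ∧ ω ∈ Good D k (c * a)}

include h in
theorem dep_B (k : ℕ) {T : Finset Γ} (hT : T ⊆ X D v) (a : Γ) : Dep (J D v a) (B D k T a) := by
  intro x y hxy
  refine not_congr (exists_congr fun c => and_congr_right fun hc => ?_)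
  have h1 : x s(c, c * a) = y s(c, c * a) := by
    apply hxy
    rw [J, Finset.mem_union]
    exact Or.inl (mem_Ed.mpr ⟨c, hT hc, rfl⟩)
  rw [h1]
  refine and_congr_right fun _ => ?_
  apply dep_good D k (c * a)
  intro i hi
  apply hxy
  rw [J, Finset.mem_union]
  exact Or.inr (Finset.sym2_mono (block_sub h v (hT hc)) hi)

include h in
/-- the doubling step -/
theorem double (k : ℕ) {ω : Sym2 Γ → ℕ} {T : Finset Γ} (hT : Wit D k v ω T) {a : Γ} (ha : a ∈ A)
    (hB : ω ∉ B D k T a) : ω ∈ Good D' (k + 1) v := by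
  simp only [B, mem_ofPred_eq, not_not] at hB
  obtain ⟨c, hc, hopen, T', hT'⟩ := hB
  obtain ⟨h1, h2, h3, h4⟩ := hT
  obtain ⟨g1, g2, g3, g4⟩ := hT'
  have hcX : c ∈ X D v := h1 hc
  have hTY : T' ⊆ Y D v a := g1.trans (block_sub h v hcX)
  have hdis : Disjoint T T' := by
    rw [Finset.disjoint_left]
    intro x hx hx'
    exact XY h v ha (h1 hx) (hTY hx')
  refine ⟨T ∪ T', ?_, ?_, Finset.mem_union_left _ h3, ?_⟩
  · apply Finset.union_subset
    · exact h1.trans (Finset.image_subset_image h.sub)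
    · exact hTY.trans (Y_sub h v ha)
  · rw [Finset.card_union_of_disjoint hdis, h2, g2, pow_succ]; ring
  · have m1 : ∀ z, Link ω T v z → Link ω (T ∪ T') v z := fun z hz =>
      Relation.ReflTransGen.mono (fun a b hab =>
        ⟨Finset.mem_union_left _ hab.1, Finset.mem_union_left _ hab.2.1, hab.2.2⟩) _ _ hz
    have m2 : ∀ z, Link ω T' (c * a) z → Link ω (T ∪ T') (c * a) z := fun z hz =>
      Relation.ReflTransGen.mono (fun a b hab =>
        ⟨Finset.mem_union_right _ hab.1, Finset.mem_union_right _ hab.2.1, hab.2.2⟩) _ _ hz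
    intro x hx
    rcases Finset.mem_union.mp hx with hx | hx
    · exact m1 x (h4 x hx)
    · refine Relation.ReflTransGen.trans (m1 c (h4 c hc)) ?_
      refine Relation.ReflTransGen.head
        ⟨Finset.mem_union_left _ hc, Finset.mem_union_right _ g3, hopen⟩ (m2 x (g4 x hx))

variable (ν : Sym2 Γ → Measure ℕ) [∀ i, IsProbabilityMeasure (ν i)]

include h in
theorem prob_B (k : ℕ) {T : Finset Γ} (hT : T ⊆ X D v) (hTc : T.card = 2 ^ k) {a : Γ} (ha : a ∈ A)
    (δ : ENNReal) (hδ : ∀ c, ν s(c, c * a) {0} ≤ δ) (hδ2 : δ ^ 2 ^ k ≤ 1 / 2)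
    (hgood : ∀ c, Measure.infinitePi ν (Good D k c)ᶜ ≤ 1 / 2) :
    Measure.infinitePi ν (B D k T a) ≤ 3 / 4 := by
  classical
  set P := Measure.infinitePi ν with hP
  set Z : Set (Sym2 Γ → ℕ) := {ω | ∀ i ∈ Ed T a, ω i = 0} with hZ
  have hZdep : Dep (Ed T a) Z := by
    intro x y hxy
    exact forall₂_congr fun i hi => by rw [hxy i hi]
  have hZP : P Z ≤ 1 / 2 := by
    rw [hZ, all_zero]
    calc ∏ i ∈ Ed T a, ν i {0} ≤ ∏ _i ∈ Ed T a, δ := by
          apply Finset.prod_le_prod'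
          intro i hi
          obtain ⟨c, _, rfl⟩ := mem_Ed.mp hi
          exact hδ c
      _ = δ ^ 2 ^ k := by rw [Finset.prod_const, Ed_card h v ha hT, hTc]
      _ ≤ 1 / 2 := hδ2
  have hsub : B D k T a ⊆ Z ∪ {ω | ω ∈ Zᶜ ∧ ω ∈ (fun c => (Good D k (c * a))ᶜ)
      (Classical.epsilon (fun c => c ∈ T ∧ ω s(c, c * a) ≠ 0))} := by
    intro ω hω
    by_cases hωZ : ω ∈ Z
    · exact Or.inl hωZ
    · right
      refine ⟨hωZ, ?_⟩
      have hex : ∃ c, c ∈ T ∧ ω s(c, c * a) ≠ 0 := by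
        simp only [hZ, mem_ofPred_eq, not_forall] at hωZ
        obtain ⟨i, hi, h1⟩ := hωZ
        obtain ⟨c, hc, rfl⟩ := mem_Ed.mp hi
        exact ⟨c, hc, h1⟩
      have hsp := Classical.epsilon_spec hex
      intro hg
      exact hω ⟨_, hsp.1, hsp.2, hg⟩
  have hch := choice ν (S := Ed T a) (T := (Y D v a).sym2) (dis_Ed_Y h v ha hT)
    (E := Zᶜ) hZdep.compl T
    (fun ω => Classical.epsilon (fun c => c ∈ T ∧ ω s(c, c * a) ≠ 0))
    (by
      intro x y hxy
      have : (fun c => c ∈ T ∧ x s(c, c * a) ≠ 0) = (fun c => c ∈ T ∧ y s(c, c * a) ≠ 0) := by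
        funext c
        apply propext
        refine and_congr_right fun hc => ?_
        rw [hxy _ (mem_Ed.mpr ⟨c, hc, rfl⟩)]
      simp only [this])
    (by
      intro ω hωZ
      have hex : ∃ c, c ∈ T ∧ ω s(c, c * a) ≠ 0 := by
        simp only [hZ, mem_compl_iff, mem_ofPred_eq, not_forall] at hωZ
        obtain ⟨i, hi, h1⟩ := hωZ
        obtain ⟨c, hc, rfl⟩ := mem_Ed.mp hi
        exact ⟨c, hc, h1⟩
      exact (Classical.epsilon_spec hex).1)
    (fun c => (Good D k (c * a))ᶜ)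
    (fun c hc => ((dep_good D k (c * a)).mono (Finset.sym2_mono (block_sub h v (hT hc)))).compl)
    (1 / 2) (fun c _ => hgood (c * a))
  have h3 : P Zᶜ = 1 - P Z := prob_compl_eq_one_sub hZdep.measurableSet
  calc P (B D k T a) ≤ P Z + P {ω | ω ∈ Zᶜ ∧ ω ∈ (fun c => (Good D k (c * a))ᶜ)
          (Classical.epsilon (fun c => c ∈ T ∧ ω s(c, c * a) ≠ 0))} :=
        (measure_mono hsub).trans (measure_union_le _ _)
    _ ≤ P Z + 1 / 2 * P Zᶜ := by
        gcongr
    _ ≤ 3 / 4 := by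
        rw [h3]
        have h4 : P Z ≠ ⊤ := measure_ne_top _ _
        obtain ⟨z, hz⟩ : ∃ z : NNReal, P Z = z := ⟨(P Z).toNNReal, (ENNReal.coe_toNNReal h4).symm⟩
        rw [hz] at hZP ⊢
        have hz2 : z ≤ 1 / 2 := by
          have : (z : ENNReal) ≤ ((1 / 2 : NNReal) : ENNReal) := by
            rw [ENNReal.coe_div (by norm_num)]
            simpa using hZP
          exact_mod_cast this
        have h5 : (z : ENNReal) + 1 / 2 * (1 - (z : ENNReal)) =
            ((z + 1 / 2 * (1 - z) : NNReal) : ENNReal) := by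
          push_cast
          rfl
        have h6 : (3 / 4 : ENNReal) = ((3 / 4 : NNReal) : ENNReal) := by
          rw [ENNReal.coe_div (by norm_num)]
          simp
        rw [h5, h6]
        have h7 : z + 1 / 2 * (1 - z) ≤ 3 / 4 := by
          have hz1 : z ≤ 1 := hz2.trans (by norm_num)
          rw [← NNReal.coe_le_coe]
          push_cast [NNReal.coe_sub hz1]
          have : (z : ℝ) ≤ 1 / 2 := by exact_mod_cast hz2
          linarith
        exact_mod_cast h7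

include h in
/-- the recursion step -/
theorem step (k : ℕ) (δ : ENNReal) (hδ : ∀ a ∈ A, ∀ c, ν s(c, c * a) {0} ≤ δ)
    (hδ2 : δ ^ 2 ^ k ≤ 1 / 2) (hgood : ∀ c, Measure.infinitePi ν (Good D k c)ᶜ ≤ 1 / 2) :
    Measure.infinitePi ν (Good D' (k + 1) v)ᶜ ≤
      Measure.infinitePi ν (Good D k v)ᶜ + (3 / 4) ^ A.card := by
  classical
  set P := Measure.infinitePi ν with hP
  have hsub : (Good D' (k + 1) v)ᶜ ⊆ (Good D k v)ᶜ ∪ {ω | ω ∈ Good D k v ∧
      ω ∈ (fun T => ⋂ a ∈ A, B D k T a) (Classical.epsilon (fun T => Wit D k v ω T))} := by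
    intro ω hω
    by_cases hg : ω ∈ Good D k v
    · right
      refine ⟨hg, ?_⟩
      simp only [mem_iInter]
      intro a ha
      by_contra hB
      exact hω (double h v k (Classical.epsilon_spec hg) ha hB)
    · exact Or.inl hg
  set s : Finset (Finset Γ) := (X D v).powerset.filter (fun T => T.card = 2 ^ k) with hs
  have hJJ : ∀ t ∈ A, ∀ t' ∈ A, t ≠ t' → Disjoint (J D v t) (J D v t') :=
    fun a ha b hb hab => dis_JJ h v ha hb hab
  have hdisj : Disjoint (X D v).sym2 (A.biUnion (J D v)) := by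
    rw [Finset.disjoint_biUnion_right]
    exact fun a ha => dis_XJ h v ha
  have hch := choice ν hdisj (E := Good D k v) (dep_good D k v) s
    (fun ω => Classical.epsilon (fun T => Wit D k v ω T))
    (by
      intro x y hxy
      have : (fun T => Wit D k v x T) = (fun T => Wit D k v y T) := by
        funext T
        exact propext (wit_iff hxy T)
      simp only [this])
    (by
      intro ω hω
      have hsp := Classical.epsilon_spec hω
      rw [hs, Finset.mem_filter, Finset.mem_powerset]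
      exact ⟨hsp.1, hsp.2.1⟩)
    (fun T => ⋂ a ∈ A, B D k T a)
    (by
      intro T hT
      rw [hs, Finset.mem_filter, Finset.mem_powerset] at hT
      intro x y hxy
      simp only [mem_iInter]
      refine forall₂_congr fun a ha => ?_
      apply dep_B h v k hT.1 a
      intro i hi
      exact hxy i (Finset.mem_biUnion.mpr ⟨a, ha, hi⟩))
    ((3 / 4) ^ A.card)
    (by
      intro T hT
      rw [hs, Finset.mem_filter, Finset.mem_powerset] at hT
      exact prod_le ν A (J D v) (fun a => B D k T a) (fun a _ => dep_B h v k hT.1 a) hJJ (3 / 4)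
        (fun a ha => prob_B h v ν k hT.1 hT.2 ha δ (hδ a ha) hδ2 hgood))
  calc P (Good D' (k + 1) v)ᶜ ≤ P (Good D k v)ᶜ + P {ω | ω ∈ Good D k v ∧
          ω ∈ (fun T => ⋂ a ∈ A, B D k T a) (Classical.epsilon (fun T => Wit D k v ω T))} :=
        (measure_mono hsub).trans (measure_union_le _ _)
    _ ≤ P (Good D k v)ᶜ + (3 / 4) ^ A.card * P (Good D k v) := by gcongr
    _ ≤ P (Good D k v)ᶜ + (3 / 4) ^ A.card * 1 := by
        gcongr
        exact prob_le_one
    _ = _ := by rw [mul_one]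

end step

end Pool.Agent.H308R3.Perc
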