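import Mathlib

set_option linter.unusedSectionVars false

open MeasureTheory ProbabilityTheory Set

namespace Pool.Agent.H308R3.Perc

variable {ι : Type*} [DecidableEq ι]

/-- the event `E` depends only on the coordinates in `S` -/
def Dep (S : Finset ι) (E : Set (ι → ℕ)) : Prop :=
  ∀ x y : ι → ℕ, (∀ i ∈ S, x i = y i) → (x ∈ E ↔ y ∈ E)

theorem Dep.mono {S T : Finset ι} {E : Set (ι → ℕ)} (h : Dep S E) (hST : S ⊆ T) : Dep T E :=
  fun x y hxy => h x y fun i hi => hxy i (hST hi)

theorem Dep.compl {S : Finset ι} {E : Set (ι → ℕ)} (h : Dep S E) : Dep S Eᶜ :=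
  fun x y hxy => not_congr (h x y hxy)

theorem Dep.inter {S : Finset ι} {E F : Set (ι → ℕ)} (h : Dep S E) (h' : Dep S F) :
    Dep S (E ∩ F) :=
  fun x y hxy => and_congr (h x y hxy) (h' x y hxy)

/-- restriction to the coordinates in `S` -/
def res (S : Finset ι) (ω : ι → ℕ) : S → ℕ := fun i => ω i

theorem measurable_res (S : Finset ι) : Measurable (res S) := by
  unfold res
  fun_prop

/-- the trace of the event on the coordinates in `S` -/
def trace (S : Finset ι) (E : Set (ι → ℕ)) : Set (S → ℕ) :=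
  {z | (fun i => if h : i ∈ S then z ⟨i, h⟩ else 0) ∈ E}

theorem Dep.eq_preimage {S : Finset ι} {E : Set (ι → ℕ)} (h : Dep S E) :
    E = res S ⁻¹' (trace S E) := by
  ext ω
  simp only [mem_preimage, trace]
  apply h
  intro i hi
  simp [hi, res]

theorem measurableSet_fin (S : Finset ι) (A : Set (S → ℕ)) : MeasurableSet A :=
  (Set.to_countable A).measurableSet

theorem Dep.measurableSet {S : Finset ι} {E : Set (ι → ℕ)} (h : Dep S E) : MeasurableSet E := by
  rw [h.eq_preimage]
  exact measurable_res S (measurableSet_fin S _)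

variable (ν : ι → Measure ℕ) [∀ i, IsProbabilityMeasure (ν i)]

/-- independence of events depending on disjoint sets of coordinates -/
theorem indep {S T : Finset ι} (hST : Disjoint S T) {E F : Set (ι → ℕ)} (hE : Dep S E)
    (hF : Dep T F) :
    Measure.infinitePi ν (E ∩ F) = Measure.infinitePi ν E * Measure.infinitePi ν F := by
  have h0 : iIndepFun (fun (i : ι) (ω : ι → ℕ) => ω i) (Measure.infinitePi ν) :=
    iIndepFun_infinitePi (X := fun _ x => x) (fun _ => measurable_id)
  have h1 := h0.indepFun_finset S T hST (fun i => measurable_pi_apply i)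
  have h2 := h1.measure_inter_preimage_eq_mul (trace S E) (trace T F) (measurableSet_fin S _)
    (measurableSet_fin T _)
  have e1 : (fun (a : ι → ℕ) (i : S) => a i) ⁻¹' (trace S E) = E := hE.eq_preimage.symm
  have e2 : (fun (a : ι → ℕ) (i : T) => a i) ⁻¹' (trace T F) = F := hF.eq_preimage.symm
  rwa [e1, e2] at h2

/-- a random but independent choice -/
theorem choice {S T : Finset ι} (hST : Disjoint S T) {E : Set (ι → ℕ)} (hE : Dep S E)
    {τ : Type*} (s : Finset τ) (φ : (ι → ℕ) → τ)
    (hφ : ∀ x y : ι → ℕ, (∀ i ∈ S, x i = y i) → φ x = φ y) (hφs : ∀ ω ∈ E, φ ω ∈ s)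
    (B : τ → Set (ι → ℕ)) (hB : ∀ t ∈ s, Dep T (B t)) (ε : ENNReal)
    (hε : ∀ t ∈ s, Measure.infinitePi ν (B t) ≤ ε) :
    Measure.infinitePi ν {ω | ω ∈ E ∧ ω ∈ B (φ ω)} ≤ ε * Measure.infinitePi ν E := by
  classical
  set P := Measure.infinitePi ν with hP
  have hD : ∀ t, Dep S (E ∩ {ω | φ ω = t}) := by
    intro t x y hxy
    have := hφ x y hxy
    simp only [mem_inter_iff, hE x y hxy]
    change (y ∈ E ∧ φ x = t) ↔ (y ∈ E ∧ φ y = t)
    rw [this]
  calc P {ω | ω ∈ E ∧ ω ∈ B (φ ω)} ≤ P (⋃ t ∈ s, (E ∩ {ω | φ ω = t}) ∩ B t) := by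
        apply measure_mono
        rintro ω ⟨h1, h2⟩
        simp only [mem_iUnion]
        exact ⟨φ ω, hφs ω h1, ⟨h1, rfl⟩, h2⟩
    _ ≤ ∑ t ∈ s, P ((E ∩ {ω | φ ω = t}) ∩ B t) := measure_biUnion_finset_le _ _
    _ = ∑ t ∈ s, P (E ∩ {ω | φ ω = t}) * P (B t) := by
        refine Finset.sum_congr rfl fun t ht => ?_
        exact indep ν hST (hD t) (hB t ht)
    _ ≤ ∑ t ∈ s, P (E ∩ {ω | φ ω = t}) * ε := by
        gcongr with t ht
        exact hε t ht
    _ = ε * ∑ t ∈ s, P (E ∩ {ω | φ ω = t}) := by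
        rw [← Finset.sum_mul, mul_comm]
    _ = ε * P (⋃ t ∈ s, (E ∩ {ω | φ ω = t})) := by
        rw [measure_biUnion_finset _ (fun t _ => (hD t).measurableSet)]
        intro a _ b _ hab
        rw [Function.onFun, Set.disjoint_left]
        rintro ω ⟨_, h1⟩ ⟨_, h2⟩
        exact hab (h1.symm.trans h2)
    _ ≤ ε * P E := by
        gcongr
        intro ω hω
        simp only [mem_iUnion] at hω
        obtain ⟨t, _, h, _⟩ := hω
        exact h

/-- the product bound for finitely many events with disjoint dependency sets -/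
theorem prod_le {τ : Type*} [DecidableEq τ] (s : Finset τ) (J : τ → Finset ι)
    (B : τ → Set (ι → ℕ)) (hB : ∀ t ∈ s, Dep (J t) (B t))
    (hJ : ∀ t ∈ s, ∀ t' ∈ s, t ≠ t' → Disjoint (J t) (J t')) (ε : ENNReal)
    (hε : ∀ t ∈ s, Measure.infinitePi ν (B t) ≤ ε) :
    Measure.infinitePi ν (⋂ t ∈ s, B t) ≤ ε ^ s.card := by
  classical
  induction s using Finset.induction_on with
  | empty => simp
  | insert a s ha ih =>
    have h1 : (⋂ t ∈ insert a s, B t) = B a ∩ ⋂ t ∈ s, B t := by
      ext ω; simp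
    have hdep : Dep (s.biUnion J) (⋂ t ∈ s, B t) := by
      intro x y hxy
      simp only [mem_iInter]
      refine forall₂_congr fun t ht => ?_
      apply hB t (Finset.mem_insert_of_mem ht)
      intro i hi
      exact hxy i (Finset.mem_biUnion.mpr ⟨t, ht, hi⟩)
    have hdis : Disjoint (J a) (s.biUnion J) := by
      rw [Finset.disjoint_biUnion_right]
      intro t ht
      exact hJ a (Finset.mem_insert_self _ _) t (Finset.mem_insert_of_mem ht)
        (by rintro rfl; exact ha ht)
    rw [h1, indep ν hdis (hB a (Finset.mem_insert_self _ _)) hdep, Finset.card_insert_of_notMem ha,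
      pow_succ']
    gcongr
    · exact hε a (Finset.mem_insert_self _ _)
    · exact ih (fun t ht => hB t (Finset.mem_insert_of_mem ht))
        (fun t ht t' ht' => hJ t (Finset.mem_insert_of_mem ht) t' (Finset.mem_insert_of_mem ht'))
        (fun t ht => hε t (Finset.mem_insert_of_mem ht))

/-- all coordinates in `S` vanish -/
theorem all_zero (S : Finset ι) :
    Measure.infinitePi ν {ω | ∀ i ∈ S, ω i = 0} = ∏ i ∈ S, ν i {0} := by
  rw [← Measure.infinitePi_pi ν (s := S) (t := fun _ => {0}) (fun _ _ => measurableSet_singleton _)]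
  rfl

end Pool.Agent.H308R3.Perc
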