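import Pool.Agent.H308R3.Perc.G

set_option linter.unusedSectionVars false

open MeasureTheory ProbabilityTheory Set Filter Topology
open scoped Pointwise ENNReal NNReal

namespace Pool.Agent.H308R3.Perc

variable {Γ : Type*} [Group Γ] [DecidableEq Γ]

theorem exists_A [Infinite Γ] (D : Finset Γ) (N : ℕ) :
    ∃ A : Finset Γ, A.card = N ∧ (∀ c ∈ D, ∀ a ∈ A, ∀ d ∈ D, c * a * d ∉ D) ∧
      (∀ c ∈ D, ∀ a ∈ A, ∀ d ∈ D, ∀ c' ∈ D, ∀ a' ∈ A, ∀ d' ∈ D,
        c * a * d = c' * a' * d' → a = a') := by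
  induction N with
  | zero => exact ⟨∅, by simp, by simp, by simp⟩
  | succ N ih =>
    obtain ⟨A, hA, h1, h2⟩ := ih
    obtain ⟨a, ha⟩ := Infinite.exists_notMem_finset (A ∪ (D⁻¹ * (D ∪ D * A * D) * D⁻¹))
    have haA : a ∉ A := fun h => ha (Finset.mem_union_left _ h)
    have key : ∀ c ∈ D, ∀ d ∈ D, c * a * d ∉ D ∪ D * A * D := by
      intro c hc d hd hx
      apply ha
      apply Finset.mem_union_right
      have : a = c⁻¹ * (c * a * d) * d⁻¹ := by group
      rw [this]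
      exact Finset.mul_mem_mul (Finset.mul_mem_mul (Finset.inv_mem_inv hc) hx)
        (Finset.inv_mem_inv hd)
    have key2 : ∀ c ∈ D, ∀ d ∈ D, ∀ c' ∈ D, ∀ a' ∈ A, ∀ d' ∈ D, c * a * d ≠ c' * a' * d' := by
      intro c hc d hd c' hc' a' ha' d' hd' h
      apply key c hc d hd
      rw [h]
      exact Finset.mem_union_right _
        (Finset.mul_mem_mul (Finset.mul_mem_mul hc' ha') hd')
    refine ⟨insert a A, by rw [Finset.card_insert_of_notMem haA, hA], ?_, ?_⟩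
    · intro c hc b hb d hd hx
      rcases Finset.mem_insert.mp hb with e | hbA
      · rw [e] at hx
        exact key c hc d hd (Finset.mem_union_left _ hx)
      · exact h1 c hc b hbA d hd hx
    · intro c hc b hb d hd c' hc' b' hb' d' hd' heq
      rcases Finset.mem_insert.mp hb with e | hbA
      · rcases Finset.mem_insert.mp hb' with e' | hbA'
        · rw [e, e']
        · rw [e] at heq
          exact absurd heq (key2 c hc d hd c' hc' b' hbA' d' hd')
      · rcases Finset.mem_insert.mp hb' with e' | hbA'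
        · rw [e'] at heq
          exact absurd heq.symm (key2 c' hc' d' hd' c hc b hbA d hd)
        · exact h2 c hc b hbA d hd c' hc' b' hbA' d' hd' heq

theorem exists_next [Infinite Γ] (D : Finset Γ) (h1 : (1 : Γ) ∈ D) (N : ℕ) :
    ∃ p : Finset Γ × Finset Γ, (1 : Γ) ∈ p.2 ∧ Scale D p.1 p.2 ∧ p.1.card = N := by
  obtain ⟨A, hA, h2, h3⟩ := exists_A D N
  refine ⟨(A, D ∪ D * A * D), Finset.mem_union_left _ h1,
    ⟨h1, Finset.subset_union_left, ?_, h2, h3⟩, hA⟩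
  intro c hc a ha d hd
  exact Finset.mem_union_right _ (Finset.mul_mem_mul (Finset.mul_mem_mul hc ha) hd)

theorem exists_scales (Γ : Type*) [Group Γ] [DecidableEq Γ] [Infinite Γ] :
    ∃ D A : ℕ → Finset Γ, D 0 = {1} ∧ ∀ k, Scale (D k) (A k) (D (k + 1)) ∧
      (A k).card = 3 * (k + 2) := by
  classical
  choose! nx hnx using fun (D : {D : Finset Γ // (1 : Γ) ∈ D}) (N : ℕ) =>
    exists_next D.1 D.2 N
  let Q : ℕ → {D : Finset Γ // (1 : Γ) ∈ D} := fun n =>
    Nat.rec ⟨{1}, by simp⟩ (fun k D => ⟨(nx D (3 * (k + 2))).2, (hnx D (3 * (k + 2))).1⟩) n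
  refine ⟨fun k => (Q k).1, fun k => (nx (Q k) (3 * (k + 2))).1, rfl, fun k => ?_⟩
  exact ⟨(hnx (Q k) (3 * (k + 2))).2.1, (hnx (Q k) (3 * (k + 2))).2.2⟩

section prob

variable {D A : ℕ → Finset Γ} (h0 : D 0 = {1}) (hS : ∀ k, Scale (D k) (A k) (D (k + 1)))
  (hc : ∀ k, (A k).card = 3 * (k + 2)) (ν : Sym2 Γ → Measure ℕ) [∀ i, IsProbabilityMeasure (ν i)]
  (hν : ∀ k, ∃ δ : ℝ≥0∞, (∀ a ∈ A k, ∀ c, ν s(c, c * a) {0} ≤ δ) ∧ δ ^ 2 ^ k ≤ 1 / 2)

theorem pow_bound (k : ℕ) : ((3 / 4 : ℝ≥0∞)) ^ (3 * (k + 2)) ≤ (1 / 2) ^ (k + 2) := by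
  rw [pow_mul]
  gcongr
  have h1 : (3 / 4 : ℝ≥0∞) = ((3 / 4 : ℝ≥0) : ℝ≥0∞) := by
    rw [ENNReal.coe_div (by norm_num)]; simp
  have h2 : (1 / 2 : ℝ≥0∞) = ((1 / 2 : ℝ≥0) : ℝ≥0∞) := by
    rw [ENNReal.coe_div (by norm_num)]; simp
  rw [h1, h2]
  have h3 : ((3 / 4 : ℝ≥0)) ^ 3 ≤ 1 / 2 := by
    rw [← NNReal.coe_le_coe]
    push_cast
    norm_num
  exact_mod_cast h3

include h0 hS hc hν in
theorem good_bound (k : ℕ) : ∀ v : Γ,
    Measure.infinitePi ν (Good (D k) k v)ᶜ + (1 / 2) ^ (k + 1) ≤ 1 / 2 := by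
  induction k with
  | zero =>
    intro v
    have : Good (D 0) 0 v = Set.univ := by
      rw [Set.eq_univ_iff_forall]
      intro ω
      refine ⟨{v}, ?_, by simp, by simp, ?_⟩
      · rw [h0]; simp
      · intro x hx
        rw [Finset.mem_singleton] at hx
        subst hx
        exact Relation.ReflTransGen.refl
    rw [this]
    simp
  | succ k ih =>
    intro v
    obtain ⟨δ, hδ, hδ2⟩ := hν k
    have h1 := step (hS k) v ν k δ hδ hδ2 (fun c => le_trans le_self_add (ih c))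
    rw [hc k] at h1
    have h3 : ((1 / 2 : ℝ≥0∞)) ^ (k + 2) + (1 / 2) ^ (k + 2) = (1 / 2) ^ (k + 1) := by
      rw [← two_mul, pow_succ, mul_comm, mul_assoc]
      rw [ENNReal.div_mul_cancel (by norm_num) (by norm_num), mul_one]
    calc Measure.infinitePi ν (Good (D (k + 1)) (k + 1) v)ᶜ + (1 / 2) ^ (k + 1 + 1)
        ≤ (Measure.infinitePi ν (Good (D k) k v)ᶜ + (3 / 4) ^ (3 * (k + 2))) +
          (1 / 2) ^ (k + 2) := by gcongr
      _ ≤ (Measure.infinitePi ν (Good (D k) k v)ᶜ + (1 / 2) ^ (k + 2)) +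
          (1 / 2) ^ (k + 2) := add_le_add (add_le_add le_rfl (pow_bound k)) le_rfl
      _ = Measure.infinitePi ν (Good (D k) k v)ᶜ + (1 / 2) ^ (k + 1) := by
          rw [add_assoc, h3]
      _ ≤ 1 / 2 := ih v

include h0 hS hc hν in
theorem good_ge (k : ℕ) (v : Γ) : 1 / 2 ≤ Measure.infinitePi ν (Good (D k) k v) := by
  have h1 := good_bound h0 hS hc ν hν k v
  have h2 : Measure.infinitePi ν (Good (D k) k v)ᶜ ≤ 1 / 2 := le_trans le_self_add h1
  have h3 : Measure.infinitePi ν (Good (D k) k v) =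
      1 - Measure.infinitePi ν (Good (D k) k v)ᶜ := by
    rw [← prob_compl_eq_one_sub (dep_good (D k) k v).compl.measurableSet, compl_compl]
  rw [h3]
  calc (1 / 2 : ℝ≥0∞) = 1 - 1 / 2 := by norm_num
    _ ≤ _ := by gcongr

/-- infinitely many good scales -/
def Lim (D : ℕ → Finset Γ) : Set (Sym2 Γ → ℕ) := ⋂ n, ⋃ k ≥ n, Good (D k) k 1

include h0 hS hc hν in
theorem lim_ge : 1 / 2 ≤ Measure.infinitePi ν (Lim D) := by
  have hm : ∀ n, MeasurableSet (⋃ k ≥ n, Good (D k) k (1 : Γ)) := fun n =>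
    MeasurableSet.iUnion fun k => MeasurableSet.iUnion fun _ => (dep_good (D k) k 1).measurableSet
  have hanti : Antitone (fun n => ⋃ k ≥ n, Good (D k) k (1 : Γ)) := by
    intro m n hmn
    apply Set.iUnion₂_mono'
    intro k hk
    exact ⟨k, le_trans hmn hk, subset_refl _⟩
  have ht := tendsto_measure_iInter_atTop (μ := Measure.infinitePi ν)
    (fun n => (hm n).nullMeasurableSet) hanti ⟨0, measure_ne_top _ _⟩
  refine ge_of_tendsto' ht fun n => ?_
  refine (good_ge h0 hS hc ν hν n 1).trans (measure_mono ?_)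
  exact Set.subset_iUnion₂ (s := fun k (_ : k ≥ n) => Good (D k) k (1 : Γ)) n (le_refl n)

end prob

/-- an infinite connected set from the witnesses -/
theorem lim_infinite (D : ℕ → Finset Γ) (ω : Sym2 Γ → ℕ) (hω : ω ∈ Lim D)
    (R : Γ → Prop) (hR1 : R 1) (hR : ∀ x y, R x → ω s(x, y) ≠ 0 → R y) : {x | R x}.Infinite := by
  intro hfin
  rw [Lim, mem_iInter] at hω
  have h1 := hω hfin.toFinset.card
  simp only [mem_iUnion] at h1
  obtain ⟨k, hk, T, hT⟩ := h1
  obtain ⟨_, h2, _, h4⟩ := hT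
  have h5 : T ⊆ hfin.toFinset := by
    intro x hx
    rw [Set.Finite.mem_toFinset]
    have h6 := h4 x hx
    induction h6 with
    | refl => exact hR1
    | tail _ hbc ih => exact hR _ _ (ih hbc.1) hbc.2.2
  have h7 := Finset.card_le_card h5
  rw [h2] at h7
  have h8 : k < 2 ^ k := Nat.lt_two_pow_self
  omega

end Pool.Agent.H308R3.Perc
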